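import Pool.Agent.Helper13.TW.StC

/-!
# Project TW, module TWO: the two sides of a curve
-/

set_option autoImplicit false

namespace Pool.Agent.Helper29.TW

open Set Topology Pool.Agent.Helper13.TR Pool.Agent.Helper13.TW

section

variable {S : Type} [MetricSpace S] [LocallyPathConnectedSpace S] [PathConnectedSpace S]
  {ω : S → Ch S 2 → ℤ} {V J : Set S}

/-- the cycle of a splitting -/
private lemma cyc_spl (hAC1 : StAC1) (hMON : StMON) (hG : GR S ω V) (hJV : J ⊆ V) {p q : S}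
    {D₁ D₂ : Set S} (hs : Spl J p q D₁ D₂) :
    dch D₁ p q - dch D₂ p q ∈ cin J 1 ∧ ∃ e : Ch S 2, bd 1 e = dch D₁ p q - dch D₂ p q := by
  obtain ⟨h1, h2, -, h4⟩ := hs
  have hD1 : D₁ ⊆ J := by rw [← h4]; exact subset_union_left
  have hD2 : D₂ ⊆ J := by rw [← h4]; exact subset_union_right
  obtain ⟨-, a1, a2⟩ := hAC1 S D₁ p q h1
  obtain ⟨-, b1, b2⟩ := hAC1 S D₂ p q h2
  have hz : dch D₁ p q - dch D₂ p q ∈ cin J 1 :=
    Submodule.sub_mem _ ((hMON S).1 _ _ 1 hD1 a1) ((hMON S).1 _ _ 1 hD2 b1)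
  refine ⟨hz, hG.bv _ ((hMON S).1 _ _ 1 hJV hz) ?_⟩
  rw [map_sub, a2, b2, sub_self]

/-- the interior in terms of one splitting -/
private lemma ins_iff (hWD : StWD) (hG : GR S ω V) (hJV : J ⊆ V) {p q : S} {D₁ D₂ : Set S}
    (hs : Spl J p q D₁ D₂) {x : S} (hx : x ∉ J) : x ∈ Ins ω J ↔ wd ω D₁ D₂ p q x ≠ 0 := by
  constructor
  · rintro ⟨_, p', q', D₁', D₂', hs', hne⟩
    rcases (hWD S ω V hG).2.2.1 J p q p' q' D₁ D₂ D₁' D₂' hs hs' hJV with h | h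
    · rw [h x hx] at hne
      exact hne
    · rw [h x hx] at hne
      exact fun h0 => hne (by rw [h0, neg_zero])
  · intro h
    exact ⟨hx, p, q, D₁, D₂, hs, h⟩

/-- TWO -/
theorem hTWO (hARN : StARN) (hWIN : StWIN) (hWD : StWD) (hSCL : StSCL) (hAC1 : StAC1)
    (hMON : StMON) : StTWO := by
  intro S _ _ _ ω V hG J hE
  obtain ⟨hJ, hJV, hne⟩ := hE
  obtain ⟨hJc, -, -⟩ := (hSCL S J hJ).2.2.2.2
  have hop : IsOpen Jᶜ := hJc.isClosed.isOpen_compl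
  obtain ⟨-, -, win3, win4, -⟩ := hWIN S ω hG.ws hG.nc
  -- constancy of the winding number along paths outside the curve
  have hcst : ∀ {p q : S} {D₁ D₂ : Set S}, Spl J p q D₁ D₂ → ∀ x y : S, JoinedIn Jᶜ x y →
      wd ω D₁ D₂ p q x = wd ω D₁ D₂ p q y := by
    intro p q D₁ D₂ hs x y hxy
    obtain ⟨hz, he⟩ := cyc_spl hAC1 hMON hG hJV hs
    exact win3 _ Jᶜ he hop (by rw [compl_compl]; exact hz) x y hxy
  have hiff : ∀ a b : S, JoinedIn Jᶜ a b → (a ∈ Ins ω J ↔ b ∈ Ins ω J) := by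
    intro a b hab
    obtain ⟨p, q, D₁, D₂, hs⟩ := hJ
    rw [ins_iff hWD hG hJV hs hab.source_mem, ins_iff hWD hG hJV hs hab.target_mem,
      hcst hs a b hab]
  have hInsJ : ∀ x ∈ Ins ω J, x ∈ Jᶜ := fun x hx => hx.1
  have hOutJ : ∀ x ∈ Out ω J, x ∈ Jᶜ ∧ x ∉ Ins ω J := fun x hx =>
    ⟨fun h => hx (Or.inl h), fun h => hx (Or.inr h)⟩
  have hOutI : ∀ x, x ∈ Jᶜ → x ∉ Ins ω J → x ∈ Out ω J := by
    rintro x h1 h2 (h3 | h3)
    · exact h1 h3
    · exact h2 h3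
  -- path components
  have hcI : ∀ x ∈ Ins ω J, pathComponentIn Jᶜ x ⊆ Ins ω J := by
    intro x hx y hy
    exact (hiff x y hy).1 hx
  have hcO : ∀ x ∈ Out ω J, pathComponentIn Jᶜ x ⊆ Out ω J := by
    intro x hx y hy
    exact hOutI y (JoinedIn.target_mem hy) fun h => (hOutJ x hx).2 ((hiff x y hy).2 h)
  have hopI : IsOpen (Ins ω J) := by
    rw [isOpen_iff_forall_mem_open]
    intro x hx
    exact ⟨pathComponentIn Jᶜ x, hcI x hx, hop.pathComponentIn x,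
      mem_pathComponentIn_self (hInsJ x hx)⟩
  have hopO : IsOpen (Out ω J) := by
    rw [isOpen_iff_forall_mem_open]
    intro x hx
    exact ⟨pathComponentIn Jᶜ x, hcO x hx, hop.pathComponentIn x,
      mem_pathComponentIn_self (hOutJ x hx).1⟩
  have hclc : IsClosed (cl ω J) := by
    rw [← isOpen_compl_iff]
    exact hopO
  have hcomp : IsCompact (cl ω J) := by
    obtain ⟨p, q, D₁, D₂, hs⟩ := hJ
    obtain ⟨hz, he⟩ := cyc_spl hAC1 hMON hG hJV hs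
    obtain ⟨Q, hQ, hQ0⟩ := win4 _ he
    refine (hJc.union hQ).of_isClosed_subset hclc ?_
    rintro x (hx | hx)
    · exact Or.inl hx
    · refine Or.inr ?_
      by_contra hxQ
      exact (ins_iff hWD hG hJV hs (hInsJ x hx)).1 hx (hQ0 x hxQ)
  have hOne : (Out ω J).Nonempty := by
    by_contra h
    rw [not_nonempty_iff_eq_empty] at h
    have h1 : cl ω J = univ := by
      have h2 : (cl ω J)ᶜ = ∅ := h
      rw [compl_empty_iff] at h2
      exact h2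
    rw [h1] at hcomp
    exact hG.nc (isCompact_univ_iff.1 hcomp)
  obtain ⟨x₀, hx₀⟩ := hne
  obtain ⟨y₀, hy₀⟩ := hOne
  have hthree := (hARN S ω hG.ws hG.nc).2 J hJ
  have hmix : ∀ x ∈ Ins ω J, ∀ y ∈ Out ω J, ¬ JoinedIn Jᶜ x y := fun x hx y hy h =>
    (hOutJ y hy).2 ((hiff x y h).1 hx)
  have hII : ∀ x ∈ Ins ω J, ∀ y ∈ Ins ω J, JoinedIn Jᶜ x y := by
    intro x hx y hy
    rcases hthree x y y₀ (hInsJ x hx) (hInsJ y hy) (hOutJ y₀ hy₀).1 with h | h | h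
    · exact h
    · exact absurd h (hmix y hy y₀ hy₀)
    · exact absurd h (hmix x hx y₀ hy₀)
  have hOO : ∀ x ∈ Out ω J, ∀ y ∈ Out ω J, JoinedIn Jᶜ x y := by
    intro x hx y hy
    rcases hthree x y x₀ (hOutJ x hx).1 (hOutJ y hy).1 (hInsJ x₀ hx₀) with h | h | h
    · exact h
    · exact absurd h.symm (hmix x₀ hx₀ y hy)
    · exact absurd h.symm (hmix x₀ hx₀ x hx)
  have hIeq : Ins ω J = pathComponentIn Jᶜ x₀ :=
    Subset.antisymm (fun y hy => hII x₀ hx₀ y hy) (hcI x₀ hx₀)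
  have hOeq : Out ω J = pathComponentIn Jᶜ y₀ :=
    Subset.antisymm (fun y hy => hOO y₀ hy₀ y hy) (hcO y₀ hy₀)
  refine ⟨⟨hopI, ?_⟩, ⟨hopO, ?_⟩, hcomp, hiff, ?_⟩
  · rw [hIeq]
    exact isPathConnected_pathComponentIn (hInsJ x₀ hx₀)
  · rw [hOeq]
    exact isPathConnected_pathComponentIn (hOutJ y₀ hy₀).1
  · intro p q D₁ D₂ hs
    refine ⟨wd ω D₁ D₂ p q x₀, (ins_iff hWD hG hJV hs (hInsJ x₀ hx₀)).1 hx₀, fun x hx => ?_,
      fun x hx => ?_⟩
    · exact hcst hs x x₀ (hII x hx x₀ hx₀)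
    · by_contra h
      exact (hOutJ x hx).2 ((ins_iff hWD hG hJV hs (hOutJ x hx).1).2 h)

end

end Pool.Agent.Helper29.TW
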