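import Pool.Agent.Helper13.TW.StB

/-!
# Project TW, module CYC2: relative `H_1` of a line is cyclic
-/

set_option autoImplicit false

namespace Pool.Agent.Helper29.TW

open Set Topology Pool.Agent.Helper13.TR Pool.Agent.Helper13.TW

private lemma omg {S : Type} [TopologicalSpace S] {ω : S → Ch S 2 → ℤ} (hW : WS S ω) (p : S)
    (κ g : Ch S 2) (hκ : κ ∈ Cyc {p} 2) (hg : g ∈ Cyc {p} 2) (m : ℤ) :
    ω p (κ - m • g) = ω p κ - m * ω p g := by
  let f : ↥(Cyc ({p} : Set S) 2) →+ ℤ :=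
    AddMonoidHom.mk' (fun e => ω p (e : Ch S 2)) (fun a b => hW.add p a.1 a.2 b.1 b.2)
  have h1 : f (⟨κ, hκ⟩ - m • ⟨g, hg⟩) = f ⟨κ, hκ⟩ - m * f ⟨g, hg⟩ := by
    rw [map_sub, map_zsmul, smul_eq_mul]
  exact h1

/-- the half lines -/
private lemma halfl (hRAY2 : StRAY2) {S : Type} [TopologicalSpace S]
    [TopologicalSpace.MetrizableSpace S] [LocallyPathConnectedSpace S] {ω : S → Ch S 2 → ℤ}
    (hW : WS S ω) {ψ : ℝ → S} (hψ : IsClosedEmbedding ψ) (h : C(S, ℝ)) (hh : ∀ t, h (ψ t) = t)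
    (s : ℝ) (hs : s = 1 ∨ s = -1) : PP (range ψ ∩ {x | 0 ≤ s * h x}) 1 := by
  obtain ⟨h', hh'⟩ : ∃ h' : C(S, ℝ), ∀ x, h' x = s * h x :=
    ⟨⟨fun x => s * h x, continuous_const.mul h.continuous⟩, fun _ => rfl⟩
  have hcl : IsClosed (range ψ ∩ {x | 0 ≤ s * h x}) :=
    hψ.isClosed_range.inter (isClosed_le continuous_const (continuous_const.mul h.continuous))
  have hs0 : s ≠ 0 := by
    rcases hs with h1 | h1 <;> rw [h1] <;> norm_num
  refine hRAY2 S ω hW _ h' hcl ?_ ?_ ⟨0, ?_⟩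
  · rintro _ ⟨⟨a, rfl⟩, _⟩ _ ⟨⟨b, rfl⟩, _⟩ hab
    rw [hh', hh', hh, hh] at hab
    rw [mul_left_cancel₀ hs0 hab]
  · intro a b
    have hK : IsCompact (ψ '' Icc (min (s * a) (s * b)) (max (s * a) (s * b))) :=
      isCompact_Icc.image hψ.continuous
    refine hK.of_isClosed_subset (hcl.inter (isClosed_Icc.preimage h'.continuous)) ?_
    rintro _ ⟨⟨⟨t, rfl⟩, _⟩, ht⟩
    rw [mem_preimage, hh', hh] at ht
    refine ⟨t, ?_, rfl⟩
    obtain ⟨h1, h2⟩ := ht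
    rcases hs with rfl | rfl
    · exact ⟨(min_le_left _ _).trans (by linarith), le_trans (by linarith) (le_max_right _ _)⟩
    · exact ⟨(min_le_right _ _).trans (by linarith), le_trans (by linarith) (le_max_left _ _)⟩
  · rintro w ⟨_, hw⟩
    rw [hh']
    exact hw

/-- CYC2 -/
theorem hCYC2 (hRAY2 : StRAY2) (hMV : StMV) (hMON : StMON) (hLIN : StLIN) (_hSDA : StSDA) :
    StCYC2 := by
  intro S _ _ _ ω hW ψ hψ
  have hmono := (hMON S).2.2.2.2.1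
  obtain ⟨h, hh⟩ := hLIN.2.2.1 S ψ hψ
  obtain ⟨lp, hlp⟩ : ∃ lp : Set S, lp = range ψ ∩ {x | 0 ≤ (1 : ℝ) * h x} := ⟨_, rfl⟩
  obtain ⟨lm, hlm⟩ : ∃ lm : Set S, lm = range ψ ∩ {x | 0 ≤ (-1 : ℝ) * h x} := ⟨_, rfl⟩
  have plp : PP lp 1 := by
    rw [hlp]
    exact halfl hRAY2 hW hψ h hh 1 (Or.inl rfl)
  have plm : PP lm 1 := by
    rw [hlm]
    exact halfl hRAY2 hW hψ h hh (-1) (Or.inr rfl)
  have clp : IsClosed lp := by
    rw [hlp]
    exact hψ.isClosed_range.inter (isClosed_le continuous_const (continuous_const.mul h.continuous))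
  have clm : IsClosed lm := by
    rw [hlm]
    exact hψ.isClosed_range.inter (isClosed_le continuous_const (continuous_const.mul h.continuous))
  have hun : lp ∪ lm = range ψ := by
    rw [hlp, hlm]
    ext x
    constructor
    · rintro (hx | hx)
      · exact hx.1
      · exact hx.1
    · intro hx
      rcases le_total 0 (h x) with h1 | h1
      · exact Or.inl ⟨hx, by show (0 : ℝ) ≤ 1 * h x; linarith⟩
      · exact Or.inr ⟨hx, by show (0 : ℝ) ≤ -1 * h x; linarith⟩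
  have hin : lp ∩ lm = {ψ 0} := by
    rw [hlp, hlm]
    ext x
    rw [mem_singleton_iff]
    constructor
    · rintro ⟨⟨⟨t, rfl⟩, h1⟩, _, h2⟩
      have h1' : (0 : ℝ) ≤ 1 * h (ψ t) := h1
      have h2' : (0 : ℝ) ≤ -1 * h (ψ t) := h2
      rw [hh] at h1' h2'
      have h3 : t = 0 := by linarith
      rw [h3]
    · rintro rfl
      have h1 : (0 : ℝ) ≤ 1 * h (ψ 0) := by rw [hh]; norm_num
      have h2 : (0 : ℝ) ≤ -1 * h (ψ 0) := by rw [hh]; norm_num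
      exact ⟨⟨⟨0, rfl⟩, h1⟩, ⟨0, rfl⟩, h2⟩
  obtain ⟨m1, m2, m3, m4, -⟩ := hMV S lp lm clp clm 1
  rw [hin] at m1 m2 m3
  rw [hun] at m1 m2
  obtain ⟨g, hg, hg1⟩ := hW.one (ψ 0)
  obtain ⟨g', ε, hgg, hε, hgε⟩ := m2 g hg
  refine ⟨ε, hε, ?_⟩
  intro e he
  have hs1 : lp ⊆ range ψ := by
    rw [← hun]
    exact subset_union_left
  have hs2 : lm ⊆ range ψ := by
    rw [← hun]
    exact subset_union_right
  obtain ⟨κ, hκ, hκe⟩ := m3 e (plp ((hmono _ _ 1 hs1).1 he)) (plm ((hmono _ _ 1 hs2).1 he))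
  refine ⟨ω (ψ 0) κ, ?_⟩
  have hm : κ - ω (ψ 0) κ • g ∈ Nul {ψ 0} 2 := by
    refine hW.ker (ψ 0) _ (Submodule.sub_mem _ hκ (Submodule.smul_mem _ _ hg)) ?_
    rw [omg hW (ψ 0) κ g hκ hg, hg1]
    ring
  have h1 : κ - ω (ψ 0) κ • g' ∈ Nul {ψ 0} 2 := by
    have h2 := Submodule.add_mem _ hm (Submodule.smul_mem _ (ω (ψ 0) κ) hgg)
    have e1 : κ - ω (ψ 0) κ • g + ω (ψ 0) κ • (g - g') = κ - ω (ψ 0) κ • g' := by
      rw [smul_sub]
      abel
    rw [e1] at h2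
    exact h2
  exact m1 _ _ (m4 _ κ e g' ε hκe hgε) h1

end Pool.Agent.Helper29.TW
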